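import Pool.Agent.Q167.BP.Kernel

/-!
Estimates for the Fourier coefficients of the biharmonic Poisson kernel.
-/

set_option autoImplicit false

open AddCircle MeasureTheory Filter Topology
open scoped ComplexConjugate

namespace Pool.Agent.Q167.BP

theorem continuous_pt : Continuous pt := (fourier 1 : C(UnitAddCircle, ℂ)).continuous

theorem integral_fourier (m : ℤ) :
    ∫ x : UnitAddCircle, (fourier m x : ℂ) ∂haarAddCircle = if m = 0 then 1 else 0 := by
  have h1 := congrFun (fourierCoeff_fourier (T := 1) m) 0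
  rw [fourierCoeff] at h1
  simp only [neg_zero, fourier_zero, one_smul] at h1
  rw [h1, Pi.single_apply]
  by_cases h : m = 0
  · simp [h]
  · rw [if_neg h, if_neg (fun h' => h h'.symm)]

section
variable {r : ℝ}

theorem continuous_poisson (hr0 : 0 ≤ r) (hr : r < 1) : Continuous fun x : UnitAddCircle => poisson r (pt x) := by
  unfold poisson
  refine Continuous.div continuous_const ((continuous_pt.sub continuous_const).norm.pow 2) fun x => ?_
  rw [norm_sub_eq]
  have := (dist_bounds hr0 x).1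
  have h1 : 0 < ‖1 - (r : ℂ) * pt x‖ := by linarith
  positivity

theorem continuous_biPoisson (hr0 : 0 ≤ r) (hr : r < 1) :
    Continuous fun x : UnitAddCircle => biPoisson r (pt x) :=
  (continuous_poisson hr0 hr).mul ((continuous_poisson hr0 hr).log fun x => (poisson_pos hr0 hr x).ne')

theorem integrable_cont {f : UnitAddCircle → ℂ} (hf : Continuous f) : Integrable f haarAddCircle :=
  hf.integrable_of_hasCompactSupport (HasCompactSupport.of_compactSpace f)

theorem integrable_cont' {f : UnitAddCircle → ℝ} (hf : Continuous f) : Integrable f haarAddCircle :=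
  hf.integrable_of_hasCompactSupport (HasCompactSupport.of_compactSpace f)

theorem integral_fourier_poisson (hr0 : 0 ≤ r) (hr : r < 1) (m : ℤ) :
    ∫ x : UnitAddCircle, (fourier m x : ℂ) * (poisson r (pt x) : ℂ) ∂haarAddCircle = (r : ℂ) ^ m.natAbs := by
  have hsum : Summable fun k : ℤ => r ^ k.natAbs := by
    refine Summable.of_nat_of_neg_add_one ?_ ?_
    · exact (summable_geometric_of_lt_one hr0 hr).congr fun n => by simp
    · exact ((summable_nat_add_iff 1).2 (summable_geometric_of_lt_one hr0 hr)).congr fun n => by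
        congr 1
  have h1 : ∀ k : ℤ, Integrable (fun x : UnitAddCircle => (fourier m x : ℂ) * ((r : ℂ) ^ k.natAbs * fourier k x))
      haarAddCircle := fun k => integrable_cont (by fun_prop)
  have h2 : Summable fun k : ℤ =>
      ∫ x : UnitAddCircle, ‖(fourier m x : ℂ) * ((r : ℂ) ^ k.natAbs * fourier k x)‖ ∂haarAddCircle := by
    refine hsum.congr fun k => ?_
    simp only [norm_mul, norm_fourier, norm_pow, Complex.norm_real, Real.norm_of_nonneg hr0, one_mul, mul_one]
    simp
  have h3 := hasSum_integral_of_summable_integral_norm h1 h2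
  have h4 : ∀ x : UnitAddCircle, ∑' k : ℤ, (fourier m x : ℂ) * ((r : ℂ) ^ k.natAbs * fourier k x) =
      (fourier m x : ℂ) * (poisson r (pt x) : ℂ) := fun x =>
    ((poisson_hasSum hr0 hr x).mul_left _).tsum_eq
  simp_rw [h4] at h3
  have h5 : ∀ k : ℤ, ∫ x : UnitAddCircle, (fourier m x : ℂ) * ((r : ℂ) ^ k.natAbs * fourier k x) ∂haarAddCircle =
      if k = -m then (r : ℂ) ^ m.natAbs else 0 := by
    intro k
    have : ∀ x : UnitAddCircle, (fourier m x : ℂ) * ((r : ℂ) ^ k.natAbs * fourier k x) =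
        (r : ℂ) ^ k.natAbs * fourier (m + k) x := fun x => by
      rw [fourier_add]; ring
    simp_rw [this]
    rw [integral_const_mul, integral_fourier]
    by_cases hk : k = -m
    · subst hk; simp
    · rw [if_neg hk, if_neg (by omega), mul_zero]
  simp_rw [h5] at h3
  exact h3.unique (hasSum_ite_eq (-m) _)

theorem integral_poisson (hr0 : 0 ≤ r) (hr : r < 1) :
    ∫ x : UnitAddCircle, poisson r (pt x) ∂haarAddCircle = 1 := by
  have h1 := integral_fourier_poisson hr0 hr 0
  simp only [fourier_zero, one_mul, Int.natAbs_zero, pow_zero] at h1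
  rw [integral_complex_ofReal] at h1
  exact_mod_cast h1

/-- the coefficients of the biharmonic Poisson kernel -/
noncomputable def cf (r : ℝ) (n : ℤ) : ℂ := coef (fun ξ => (biPoisson r ξ : ℂ)) n

theorem cf_eq (r : ℝ) (n : ℤ) : cf r n =
    ∫ x : UnitAddCircle, (fourier (-n) x : ℂ) * (biPoisson r (pt x) : ℂ) ∂haarAddCircle := by
  rw [cf, coef, fourierCoeff]
  rfl

theorem summable_lc (hr0 : 0 ≤ r) (hr : r < 1) : Summable fun j : ℤ => ‖lc r j‖ := by
  have hsum : Summable fun k : ℤ => (|Real.log (1 - r ^ 2)| + 1) * r ^ k.natAbs := by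
    refine Summable.mul_left _ ?_
    refine Summable.of_nat_of_neg_add_one ?_ ?_
    · exact (summable_geometric_of_lt_one hr0 hr).congr fun n => by simp
    · exact ((summable_nat_add_iff 1).2 (summable_geometric_of_lt_one hr0 hr)).congr fun n => by
        congr 1
  refine Summable.of_nonneg_of_le (fun _ => norm_nonneg _) (fun j => ?_) hsum
  unfold lc
  split_ifs with h
  · subst h
    rw [Complex.norm_real, Real.norm_eq_abs]
    simp
  · rw [norm_div, norm_pow, Complex.norm_real, Real.norm_of_nonneg hr0, Complex.norm_natCast]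
    have h1 : (1 : ℝ) ≤ j.natAbs := by
      have : 1 ≤ j.natAbs := Nat.one_le_iff_ne_zero.2 (Int.natAbs_ne_zero.2 h)
      exact_mod_cast this
    have h2 : 0 ≤ r ^ j.natAbs := by positivity
    calc r ^ j.natAbs / j.natAbs ≤ r ^ j.natAbs := div_le_self h2 h1
      _ ≤ (|Real.log (1 - r ^ 2)| + 1) * r ^ j.natAbs := by
        nlinarith [abs_nonneg (Real.log (1 - r ^ 2))]

theorem norm_lc_le (hr0 : 0 ≤ r) (j : ℤ) : ‖lc r j‖ ≤ (|Real.log (1 - r ^ 2)| + 1) * r ^ j.natAbs := by
  unfold lc
  split_ifs with h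
  · subst h
    rw [Complex.norm_real, Real.norm_eq_abs]
    simp
  · rw [norm_div, norm_pow, Complex.norm_real, Real.norm_of_nonneg hr0, Complex.norm_natCast]
    have h1 : (1 : ℝ) ≤ j.natAbs := by
      have : 1 ≤ j.natAbs := Nat.one_le_iff_ne_zero.2 (Int.natAbs_ne_zero.2 h)
      exact_mod_cast this
    have h2 : 0 ≤ r ^ j.natAbs := by positivity
    calc r ^ j.natAbs / j.natAbs ≤ r ^ j.natAbs := div_le_self h2 h1
      _ ≤ (|Real.log (1 - r ^ 2)| + 1) * r ^ j.natAbs := by
        nlinarith [abs_nonneg (Real.log (1 - r ^ 2))]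

theorem cf_hasSum (hr0 : 0 ≤ r) (hr : r < 1) (n : ℤ) :
    HasSum (fun j : ℤ => lc r j * (r : ℂ) ^ (j - n).natAbs) (cf r n) := by
  have hP := continuous_poisson hr0 hr
  have hPc : Continuous fun x : UnitAddCircle => (poisson r (pt x) : ℂ) := Complex.continuous_ofReal.comp hP
  have h1 : ∀ j : ℤ, Integrable (fun x : UnitAddCircle => (fourier (-n) x : ℂ) * (poisson r (pt x) : ℂ) *
      (lc r j * fourier j x)) haarAddCircle := fun j => integrable_cont (by fun_prop)
  have h2 : Summable fun j : ℤ => ∫ x : UnitAddCircle, ‖(fourier (-n) x : ℂ) * (poisson r (pt x) : ℂ) *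
      (lc r j * fourier j x)‖ ∂haarAddCircle := by
    refine (summable_lc hr0 hr).congr fun j => ?_
    have : ∀ x : UnitAddCircle, ‖(fourier (-n) x : ℂ) * (poisson r (pt x) : ℂ) * (lc r j * fourier j x)‖ =
        ‖lc r j‖ * poisson r (pt x) := fun x => by
      rw [norm_mul, norm_mul, norm_mul, norm_fourier, norm_fourier, Complex.norm_real,
        Real.norm_of_nonneg (poisson_pos hr0 hr x).le]
      ring
    simp_rw [this]
    rw [integral_const_mul, integral_poisson hr0 hr, mul_one]
  have h3 := hasSum_integral_of_summable_integral_norm h1 h2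
  have h4 : ∀ x : UnitAddCircle, ∑' j : ℤ, (fourier (-n) x : ℂ) * (poisson r (pt x) : ℂ) * (lc r j * fourier j x) =
      (fourier (-n) x : ℂ) * (biPoisson r (pt x) : ℂ) := fun x => by
    rw [((log_hasSum hr0 hr x).mul_left _).tsum_eq, biPoisson]
    push_cast; ring
  simp_rw [h4] at h3
  rw [← cf_eq] at h3
  refine h3.congr_fun ?_ |> id
  intro j
  have : ∀ x : UnitAddCircle, (fourier (-n) x : ℂ) * (poisson r (pt x) : ℂ) * (lc r j * fourier j x) =
      lc r j * (fourier (j - n) x * (poisson r (pt x) : ℂ)) := fun x => by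
    rw [sub_eq_add_neg, fourier_add]; ring
  simp_rw [this]
  rw [integral_const_mul, integral_fourier_poisson hr0 hr]

theorem cf_zero (hr0 : 0 ≤ r) (hr : r < 1) : cf r 0 = ((-Real.log (1 - r ^ 2) : ℝ) : ℂ) := by
  have h1 := cf_hasSum hr0 hr 0
  have hr2 : |r ^ 2| < 1 := by
    rw [abs_of_nonneg (sq_nonneg r)]; nlinarith
  have h2 : HasSum (fun n : ℕ => (r ^ 2) ^ (n + 1) / (n + 1 : ℝ)) (-Real.log (1 - r ^ 2)) :=
    Real.hasSum_pow_div_log_of_abs_lt_one hr2
  have h3 : HasSum (fun n : ℕ => (((r ^ 2) ^ (n + 1) / (n + 1 : ℝ) : ℝ) : ℂ)) ((-Real.log (1 - r ^ 2) : ℝ) : ℂ) :=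
    Complex.hasSum_ofReal.2 h2
  have h4 : HasSum (fun n : ℕ => if n = 0 then (Real.log (1 - r ^ 2) : ℂ) else
      (((r ^ 2) ^ n / (n : ℝ) : ℝ) : ℂ)) ((Real.log (1 - r ^ 2) : ℂ) + ((-Real.log (1 - r ^ 2) : ℝ) : ℂ)) := by
    rw [← hasSum_nat_add_iff' 1]
    simp only [Finset.range_one, Finset.sum_singleton, if_true, add_sub_cancel_left]
    refine h3.congr_fun ?_ |> id
    intro n
    rw [if_neg (Nat.succ_ne_zero n)]
    push_cast; rfl
  have h5 : HasSum (fun j : ℤ => lc r j * (r : ℂ) ^ (j - 0).natAbs)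
      (((Real.log (1 - r ^ 2) : ℂ) + ((-Real.log (1 - r ^ 2) : ℝ) : ℂ)) + ((-Real.log (1 - r ^ 2) : ℝ) : ℂ)) := by
    refine HasSum.of_nat_of_neg_add_one ?_ ?_
    · refine h4.congr_fun ?_ |> id
      intro n
      rcases Nat.eq_zero_or_pos n with rfl | hn
      · simp [lc]
      · have : (n : ℤ) ≠ 0 := by exact_mod_cast hn.ne'
        rw [lc, if_neg this, if_neg hn.ne', sub_zero, Int.natAbs_natCast]
        push_cast
        ring
    · refine h3.congr_fun ?_ |> id
      intro n
      have e1 : (-((n : ℤ) + 1)).natAbs = n + 1 := by omega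
      have e3 : -((n : ℤ) + 1) ≠ 0 := by omega
      rw [lc, if_neg e3, sub_zero, e1]
      push_cast
      ring
  have h6 := h1.unique h5
  rw [h6]
  push_cast
  ring

theorem norm_cf_le (hr0 : 0 ≤ r) (hr : r < 1) (n : ℤ) : ‖cf r n‖ ≤ Real.log ((1 + r) / (1 - r)) := by
  rw [cf_eq]
  refine (norm_integral_le_integral_norm _).trans ?_
  have h1 : ∀ x : UnitAddCircle, ‖(fourier (-n) x : ℂ) * (biPoisson r (pt x) : ℂ)‖ ≤
      Real.log ((1 + r) / (1 - r)) * poisson r (pt x) := fun x => by
    rw [norm_mul, norm_fourier, one_mul, Complex.norm_real, biPoisson, Real.norm_eq_abs, abs_mul,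
      abs_of_pos (poisson_pos hr0 hr x), mul_comm]
    exact mul_le_mul_of_nonneg_right (abs_log_poisson hr0 hr x) (poisson_pos hr0 hr x).le
  have hc := continuous_biPoisson hr0 hr
  have hcc : Continuous fun x : UnitAddCircle => (biPoisson r (pt x) : ℂ) := Complex.continuous_ofReal.comp hc
  have h2 := integral_mono (μ := haarAddCircle) (integrable_cont' (by fun_prop))
    (integrable_cont' ((continuous_poisson hr0 hr).const_mul _ |> id)) h1
  rwa [integral_const_mul, integral_poisson hr0 hr, mul_one] at h2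

theorem norm_cf_sub_le (hr0 : 0 ≤ r) (hr : r < 1) (n : ℤ) (ε : ℝ) (hε : 0 < ε) :
    ‖cf r n - cf r 0‖ ≤ Real.log ((1 + r) / (1 - r)) * (ε + (2 - 2 * r ^ n.natAbs) / ε) := by
  have hR : 0 ≤ Real.log ((1 + r) / (1 - r)) := Real.log_nonneg (by
    rw [le_div_iff₀ (by linarith)]; linarith)
  have hc := continuous_biPoisson hr0 hr
  have hP := continuous_poisson hr0 hr
  have hcc : Continuous fun x : UnitAddCircle => (biPoisson r (pt x) : ℂ) := Complex.continuous_ofReal.comp hc
  have hPc : Continuous fun x : UnitAddCircle => (poisson r (pt x) : ℂ) := Complex.continuous_ofReal.comp hP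
  rw [cf_eq, cf_eq, ← integral_sub (integrable_cont (by fun_prop)) (integrable_cont (by fun_prop))]
  refine (norm_integral_le_integral_norm _).trans ?_
  have h1 : ∀ x : UnitAddCircle,
      ‖(fourier (-n) x : ℂ) * (biPoisson r (pt x) : ℂ) - (fourier (-0) x : ℂ) * (biPoisson r (pt x) : ℂ)‖ ≤
      Real.log ((1 + r) / (1 - r)) * (ε * poisson r (pt x) +
        (2 - 2 * (fourier (-n) x : ℂ).re) * poisson r (pt x) / ε) := fun x => by
    set u : ℂ := (fourier (-n) x : ℂ) with hu
    have hun : ‖u‖ = 1 := norm_fourier _ _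
    have h2 : ‖u - 1‖ ^ 2 = 2 - 2 * u.re := by
      rw [← Complex.normSq_eq_norm_sq, Complex.normSq_apply]
      have h3 : u.re ^ 2 + u.im ^ 2 = 1 := by
        have := Complex.normSq_eq_norm_sq u
        rw [hun, Complex.normSq_apply] at this
        linarith
      simp only [Complex.sub_re, Complex.one_re, Complex.sub_im, Complex.one_im, sub_zero]
      nlinarith
    have h3 : ‖u - 1‖ ≤ ε + ‖u - 1‖ ^ 2 / ε := by
      have h0 := norm_nonneg (u - 1)
      by_cases h : ‖u - 1‖ ≤ ε
      · have : 0 ≤ ‖u - 1‖ ^ 2 / ε := by positivity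
        linarith
      · push Not at h
        have : ‖u - 1‖ ≤ ‖u - 1‖ ^ 2 / ε := by
          rw [le_div_iff₀ hε]; nlinarith
        linarith
    have hpos := poisson_pos hr0 hr x
    rw [neg_zero, fourier_zero, ← sub_mul, norm_mul, Complex.norm_real, biPoisson, Real.norm_eq_abs, abs_mul,
      abs_of_pos hpos]
    calc ‖u - 1‖ * (poisson r (pt x) * |Real.log (poisson r (pt x))|)
        ≤ (ε + ‖u - 1‖ ^ 2 / ε) * (poisson r (pt x) * Real.log ((1 + r) / (1 - r))) := by
          refine mul_le_mul h3 ?_ (by positivity) (by positivity)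
          exact mul_le_mul_of_nonneg_left (abs_log_poisson hr0 hr x) hpos.le
      _ = _ := by rw [h2]; ring
  have hre : Continuous fun x : UnitAddCircle => (fourier (-n) x : ℂ).re := Complex.continuous_re.comp (by fun_prop)
  have h2 := integral_mono (μ := haarAddCircle) (integrable_cont' (by fun_prop))
    (integrable_cont' (by fun_prop)) h1
  refine h2.trans (le_of_eq ?_)
  rw [integral_const_mul]
  congr 1
  have e1 : ∀ x : UnitAddCircle, ε * poisson r (pt x) + (2 - 2 * (fourier (-n) x : ℂ).re) * poisson r (pt x) / ε =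
      (ε + 2 / ε) * poisson r (pt x) - 2 / ε * ((fourier (-n) x : ℂ) * (poisson r (pt x) : ℂ)).re := fun x => by
    rw [Complex.mul_re, Complex.ofReal_re, Complex.ofReal_im, mul_zero, sub_zero]
    field_simp
    ring
  simp_rw [e1]
  have hre2 : Continuous fun x : UnitAddCircle => ((fourier (-n) x : ℂ) * (poisson r (pt x) : ℂ)).re :=
    Complex.continuous_re.comp (by fun_prop)
  rw [integral_sub (integrable_cont' (by fun_prop)) (integrable_cont' (by fun_prop)), integral_const_mul,
    integral_const_mul, integral_poisson hr0 hr]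
  have e2 : ∫ x : UnitAddCircle, ((fourier (-n) x : ℂ) * (poisson r (pt x) : ℂ)).re ∂haarAddCircle = r ^ n.natAbs := by
    have h5 : Integrable (fun x : UnitAddCircle => (fourier (-n) x : ℂ) * (poisson r (pt x) : ℂ)) haarAddCircle :=
      integrable_cont (by fun_prop)
    have h3 := integral_re h5
    have h4 := integral_fourier_poisson hr0 hr (-n)
    rw [Int.natAbs_neg] at h4
    calc _ = ∫ x : UnitAddCircle, RCLike.re ((fourier (-n) x : ℂ) * (poisson r (pt x) : ℂ)) ∂haarAddCircle := rfl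
      _ = RCLike.re (∫ x : UnitAddCircle, (fourier (-n) x : ℂ) * (poisson r (pt x) : ℂ) ∂haarAddCircle) := h3
      _ = _ := by
        rw [h4, ← Complex.ofReal_pow]; exact Complex.ofReal_re _
  rw [e2]
  field_simp
  ring

/-- geometric decay of the coefficients -/
theorem cf_decay (hr0 : 0 ≤ r) (hr : r < 1) : ∃ K ρ : ℝ, 0 < ρ ∧ ρ < 1 ∧ ∀ n : ℤ, ‖cf r n‖ ≤ K * ρ ^ n.natAbs := by
  set ρ : ℝ := Real.sqrt ((1 + r) / 2) with hρ
  have h0 : 0 < (1 + r) / 2 := by linarith
  have hρ0 : 0 < ρ := Real.sqrt_pos.2 h0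
  have hρ1 : ρ < 1 := by
    rw [hρ, Real.sqrt_lt' one_pos]; linarith
  have hrρ : r ≤ ρ * ρ := by
    rw [hρ, Real.mul_self_sqrt h0.le]; linarith
  have hsum : Summable fun k : ℤ => ρ ^ k.natAbs := by
    refine Summable.of_nat_of_neg_add_one ?_ ?_
    · exact (summable_geometric_of_lt_one hρ0.le hρ1).congr fun n => by simp
    · exact ((summable_nat_add_iff 1).2 (summable_geometric_of_lt_one hρ0.le hρ1)).congr fun n => by
        congr 1
  set B := |Real.log (1 - r ^ 2)| + 1 with hB
  have hB0 : 0 ≤ B := by positivity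
  refine ⟨B * ∑' k : ℤ, ρ ^ k.natAbs, ρ, hρ0, hρ1, fun n => ?_⟩
  have hterm : ∀ j : ℤ, ‖lc r j * (r : ℂ) ^ (j - n).natAbs‖ ≤ B * ρ ^ n.natAbs * ρ ^ j.natAbs := by
    intro j
    rw [norm_mul, norm_pow, Complex.norm_real, Real.norm_of_nonneg hr0]
    have h1 : ρ ^ (j.natAbs + (j - n).natAbs) ≤ ρ ^ n.natAbs :=
      pow_le_pow_of_le_one hρ0.le hρ1.le (by omega)
    have h2 : ρ ^ (j.natAbs + (j - n).natAbs) ≤ ρ ^ j.natAbs :=
      pow_le_pow_of_le_one hρ0.le hρ1.le (by omega)
    calc ‖lc r j‖ * r ^ (j - n).natAbs ≤ (B * r ^ j.natAbs) * r ^ (j - n).natAbs := by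
          gcongr
          exact norm_lc_le hr0 j
      _ = B * r ^ (j.natAbs + (j - n).natAbs) := by rw [pow_add]; ring
      _ ≤ B * (ρ * ρ) ^ (j.natAbs + (j - n).natAbs) := by gcongr
      _ = B * (ρ ^ (j.natAbs + (j - n).natAbs) * ρ ^ (j.natAbs + (j - n).natAbs)) := by rw [mul_pow]
      _ ≤ B * (ρ ^ n.natAbs * ρ ^ j.natAbs) := by gcongr
      _ = _ := by ring
  rw [← (cf_hasSum hr0 hr n).tsum_eq]
  calc ‖∑' j : ℤ, lc r j * (r : ℂ) ^ (j - n).natAbs‖ ≤ ∑' j : ℤ, B * ρ ^ n.natAbs * ρ ^ j.natAbs :=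
        tsum_of_norm_bounded ((hsum.mul_left _).hasSum) hterm
    _ = _ := by rw [tsum_mul_left]; ring

end

/-- hyperbolic distance tends to infinity -/
theorem tendsto_R : Tendsto (fun k : ℕ => Real.log ((1 + (1 - 1 / ((k : ℝ) + 2))) / (1 - (1 - 1 / ((k : ℝ) + 2)))))
    atTop atTop := by
  refine Real.tendsto_log_atTop.comp ?_
  refine tendsto_atTop_mono (f := fun k : ℕ => (k : ℝ)) (fun k => ?_) tendsto_natCast_atTop_atTop
  have hk : (0 : ℝ) < (k : ℝ) + 2 := by positivity
  have h1 : (1 + (1 - 1 / ((k : ℝ) + 2))) / (1 - (1 - 1 / ((k : ℝ) + 2))) = 2 * ((k : ℝ) + 2) - 1 := by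
    field_simp; ring
  rw [h1]
  have : (0 : ℝ) ≤ k := Nat.cast_nonneg k
  linarith

/-- the normalised coefficients tend to one -/
theorem cf_limit (n : ℤ) : Tendsto (fun k : ℕ => cf (1 - 1 / ((k : ℝ) + 2)) n /
    ((1 + Real.log ((1 + (1 - 1 / ((k : ℝ) + 2))) / (1 - (1 - 1 / ((k : ℝ) + 2)))) : ℝ) : ℂ)) atTop (𝓝 1) := by
  set r : ℕ → ℝ := fun k => 1 - 1 / ((k : ℝ) + 2) with hr
  set R : ℕ → ℝ := fun k => Real.log ((1 + r k) / (1 - r k)) with hR
  have hr0 : ∀ k, 0 ≤ r k := fun k => by
    simp only [hr]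
    have : 1 / ((k : ℝ) + 2) ≤ 1 := by
      rw [div_le_one (by positivity)]
      have : (0 : ℝ) ≤ k := Nat.cast_nonneg k
      linarith
    linarith
  have hr1 : ∀ k, r k < 1 := fun k => by
    simp only [hr]
    have : 0 < 1 / ((k : ℝ) + 2) := by positivity
    linarith
  have hrlim : Tendsto r atTop (𝓝 1) := by
    have h1 : Tendsto (fun k : ℕ => 1 / ((k : ℝ) + 2)) atTop (𝓝 0) := by
      have h2 : Tendsto (fun k : ℕ => (k : ℝ) + 2) atTop atTop :=
        tendsto_atTop_add_const_right _ _ tendsto_natCast_atTop_atTop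
      simp only [one_div]
      exact h2.inv_tendsto_atTop
    simpa [hr] using (tendsto_const_nhds (x := (1 : ℝ))).sub h1
  have hR0 : ∀ k, 0 ≤ R k := fun k => Real.log_nonneg (by
    rw [le_div_iff₀ (by linarith [hr1 k])]; linarith [hr0 k])
  have hRlim : Tendsto R atTop atTop := tendsto_R
  -- the difference with the coefficient number zero
  have hdiff : Tendsto (fun k => (cf (r k) n - cf (r k) 0) / ((1 + R k : ℝ) : ℂ)) atTop (𝓝 0) := by
    rw [tendsto_zero_iff_norm_tendsto_zero, Metric.tendsto_atTop]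
    intro ε hε
    have h1 : Tendsto (fun k => (2 - 2 * r k ^ n.natAbs) / (ε / 4)) atTop (𝓝 0) := by
      have := ((tendsto_const_nhds (x := (2 : ℝ))).sub ((hrlim.pow n.natAbs).const_mul 2)).div_const (ε / 4)
      simpa using this
    obtain ⟨N, hN⟩ := eventually_atTop.1 (h1.eventually_lt_const (show (0 : ℝ) < ε / 4 by positivity))
    refine ⟨N, fun k hk => ?_⟩
    rw [dist_zero_right, norm_norm, norm_div, Complex.norm_real, Real.norm_of_nonneg (by linarith [hR0 k]),
      div_lt_iff₀ (by linarith [hR0 k])]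
    have h2 := norm_cf_sub_le (hr0 k) (hr1 k) n (ε / 4) (by positivity)
    have h3 := hN k hk
    have h4 : ‖cf (r k) n - cf (r k) 0‖ ≤ R k * (ε / 2) := by
      refine h2.trans ?_
      exact mul_le_mul_of_nonneg_left (by linarith) (hR0 k)
    have := hR0 k
    nlinarith
  have hzero : Tendsto (fun k => cf (r k) 0 / ((1 + R k : ℝ) : ℂ)) atTop (𝓝 1) := by
    have h1 : ∀ k, cf (r k) 0 / ((1 + R k : ℝ) : ℂ) =
        ((1 - (1 + 2 * Real.log (1 + r k)) / (1 + R k) : ℝ) : ℂ) := by
      intro k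
      have hp : 0 < 1 + r k := by linarith [hr0 k]
      have hm : 0 < 1 - r k := by linarith [hr1 k]
      have hRk : 0 < 1 + R k := by linarith [hR0 k]
      rw [cf_zero (hr0 k) (hr1 k), ← Complex.ofReal_div]
      congr 1
      have h2 : R k = Real.log (1 + r k) - Real.log (1 - r k) := Real.log_div hp.ne' hm.ne'
      have h3 : Real.log (1 - r k ^ 2) = Real.log (1 + r k) + Real.log (1 - r k) := by
        rw [← Real.log_mul hp.ne' hm.ne']; congr 1; ring
      rw [eq_sub_iff_add_eq, ← add_div, div_eq_one_iff_eq hRk.ne', h3, h2]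
      ring
    simp_rw [h1]
    have h2 : Tendsto (fun k => (1 + 2 * Real.log (1 + r k)) / (1 + R k)) atTop (𝓝 0) := by
      have h3 : Tendsto (fun k => 1 + 2 * Real.log (1 + r k)) atTop (𝓝 (1 + 2 * Real.log (1 + 1))) := by
        refine tendsto_const_nhds.add (Tendsto.const_mul 2 ?_)
        exact (Real.continuousAt_log (by norm_num)).tendsto.comp (tendsto_const_nhds.add hrlim)
      have h4 : Tendsto (fun k => 1 + R k) atTop atTop := tendsto_atTop_add_const_left _ _ hRlim
      exact h3.div_atTop h4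
    have h3 : Tendsto (fun k => 1 - (1 + 2 * Real.log (1 + r k)) / (1 + R k)) atTop (𝓝 1) := by
      simpa using (tendsto_const_nhds (x := (1 : ℝ))).sub h2
    exact_mod_cast (Complex.continuous_ofReal.tendsto 1).comp h3
  have := hdiff.add hzero
  rw [zero_add] at this
  refine this.congr fun k => ?_
  rw [← add_div, sub_add_cancel]

end Pool.Agent.Q167.BP
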