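import Pool.Agent.Q167.BP.Main

/-!
The pairing with a functional of bounded density, and the converse estimate.
-/

set_option autoImplicit false

open AddCircle MeasureTheory Filter Topology
open scoped ComplexConjugate InnerProductSpace ENNReal

namespace Pool.Agent.Q167.BP

theorem pairing_eq {ν : ℤ → ℂ} {φ : UnitAddCircle → ℂ} {C : ℝ} (hφm : Measurable φ) (hb : ∀ x, ‖φ x‖ ≤ C)
    (hν : ∀ n, ν n = fourierCoeff φ n) (g : ℂ → ℂ) (hg : Continuous fun x : UnitAddCircle => g (pt x))
    (hs : Summable (coef g)) : pairing ν g = ∫ x, g (pt x) * φ x ∂haarAddCircle := by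
  have hφi : Integrable φ haarAddCircle :=
    (integrable_const C).mono' hφm.aestronglyMeasurable (Eventually.of_forall hb)
  have h1 : ∀ n : ℤ, Integrable (fun x : UnitAddCircle => coef g n * fourier n x * φ x) haarAddCircle := by
    intro n
    refine hφi.bdd_mul (c := ‖coef g n‖) (by fun_prop) (Eventually.of_forall fun x => ?_)
    rw [norm_mul, norm_fourier, mul_one]
  have hC0 : 0 ≤ C := (norm_nonneg _).trans (hb 0)
  have h2 : Summable fun n : ℤ => ∫ x : UnitAddCircle, ‖coef g n * fourier n x * φ x‖ ∂haarAddCircle := by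
    refine Summable.of_nonneg_of_le (fun n => integral_nonneg fun x => norm_nonneg _) (fun n => ?_)
      (hs.norm.mul_right C)
    have h3 : ∫ x : UnitAddCircle, ‖coef g n * fourier n x * φ x‖ ∂haarAddCircle ≤
        ∫ x : UnitAddCircle, ‖coef g n‖ * C ∂haarAddCircle := by
      refine integral_mono (h1 n).norm (integrable_const _) fun x => ?_
      simp only
      rw [norm_mul, norm_mul, norm_fourier, mul_one]
      exact mul_le_mul_of_nonneg_left (hb x) (norm_nonneg _)
    simpa using h3
  have h3 := hasSum_integral_of_summable_integral_norm h1 h2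
  have h4 : ∀ x : UnitAddCircle, ∑' n : ℤ, coef g n * fourier n x * φ x = g (pt x) * φ x := by
    intro x
    let gc : C(UnitAddCircle, ℂ) := ⟨fun x => g (pt x), hg⟩
    have h5 := has_pointwise_sum_fourier_series_of_summable (f := gc) hs x
    have h6 := h5.mul_right (φ x)
    exact h6.tsum_eq
  simp_rw [h4] at h3
  rw [pairing, ← h3.tsum_eq]
  refine tsum_congr fun n => ?_
  have : ∀ x : UnitAddCircle, coef g n * fourier n x * φ x = coef g n * (fourier n x * φ x) := fun x => by ring
  simp_rw [this]
  rw [integral_const_mul, hν, fourierCoeff, neg_neg]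
  rfl

theorem exists_pt (z : ℂ) : ∃ y : UnitAddCircle, z = (‖z‖ : ℂ) * pt y := by
  refine ⟨((z.arg / (2 * Real.pi) : ℝ) : UnitAddCircle), ?_⟩
  rw [pt, fourier_coe_apply]
  have h1 : (2 * Real.pi * Complex.I * ((1 : ℤ) : ℂ) * ((z.arg / (2 * Real.pi) : ℝ) : ℂ) / ((1 : ℝ) : ℂ)) =
      (z.arg : ℂ) * Complex.I := by
    have hpi : (Real.pi : ℂ) ≠ 0 := by exact_mod_cast Real.pi_ne_zero
    push_cast
    field_simp
  rw [h1]
  exact (Complex.norm_mul_exp_arg_mul_I z).symm

theorem conv {ν : ℤ → ℂ} {φ : UnitAddCircle → ℂ} {C : ℝ} (hφm : Measurable φ) (hb : ∀ x, ‖φ x‖ ≤ C)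
    (hν : ∀ n, ν n = fourierCoeff φ n) (z : ℂ) (hz : ‖z‖ < 1) : ‖transform ν z‖ ≤ C * hypDist z := by
  obtain ⟨y, hy⟩ := exists_pt z
  set r := ‖z‖ with hr
  have hr0 : 0 ≤ r := norm_nonneg z
  have hC0 : 0 ≤ C := (norm_nonneg _).trans (hb 0)
  have hrot : ∀ x, biPoisson z (pt x) = biPoisson r (pt (x - y)) := fun x => by rw [hy, biPoisson_rot]
  have hcont : Continuous fun x : UnitAddCircle => biPoisson z (pt x) := by
    simp_rw [hrot]
    exact (continuous_biPoisson hr0 hz).comp (continuous_id.sub continuous_const)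
  have hs : Summable (coef fun ξ => (biPoisson z ξ : ℂ)) := by
    obtain ⟨K, ρ, hρ0, hρ1, hK⟩ := cf_decay hr0 hz
    have hsum : Summable fun k : ℤ => K * ρ ^ k.natAbs := by
      refine Summable.mul_left _ ?_
      refine Summable.of_nat_of_neg_add_one ?_ ?_
      · exact (summable_geometric_of_lt_one hρ0.le hρ1).congr fun n => by simp
      · exact ((summable_nat_add_iff 1).2 (summable_geometric_of_lt_one hρ0.le hρ1)).congr fun n => by
          congr 1
    refine Summable.of_norm_bounded hsum fun n => ?_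
    have h1 : coef (fun ξ => (biPoisson z ξ : ℂ)) n = (fourier (-n) y : ℂ) * cf r n := by
      rw [← coef_rot, ← hy]
    rw [h1, norm_mul, norm_fourier, one_mul]
    exact hK n
  rw [transform, pairing_eq hφm hb hν _ (Complex.continuous_ofReal.comp hcont) hs]
  refine (norm_integral_le_integral_norm _).trans ?_
  have h1 : ∀ x : UnitAddCircle, ‖(biPoisson z (pt x) : ℂ) * φ x‖ ≤ C * hypDist z * poisson r (pt (x - y)) := by
    intro x
    rw [norm_mul, Complex.norm_real, hrot, biPoisson, Real.norm_eq_abs, abs_mul,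
      abs_of_pos (poisson_pos hr0 hz (x - y)), hypDist]
    have h2 := abs_log_poisson hr0 hz (x - y)
    have h3 := (poisson_pos hr0 hz (x - y)).le
    calc poisson r (pt (x - y)) * |Real.log (poisson r (pt (x - y)))| * ‖φ x‖
        ≤ poisson r (pt (x - y)) * Real.log ((1 + r) / (1 - r)) * C := by
          refine mul_le_mul (mul_le_mul_of_nonneg_left h2 h3) (hb x) (norm_nonneg _) ?_
          exact mul_nonneg h3 ((abs_nonneg _).trans h2)
      _ = _ := by ring
  have hPc : Continuous fun x : UnitAddCircle => poisson r (pt (x - y)) :=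
    (continuous_poisson hr0 hz).comp (continuous_id.sub continuous_const)
  have h2 := integral_mono_of_nonneg (μ := (haarAddCircle : Measure UnitAddCircle))
    (Eventually.of_forall fun x => norm_nonneg ((biPoisson z (pt x) : ℂ) * φ x))
    (integrable_cont' (hPc.const_mul (C * hypDist z) |> id)) (Eventually.of_forall h1)
  refine h2.trans (le_of_eq ?_)
  rw [integral_const_mul]
  have h3 : ∫ x : UnitAddCircle, poisson r (pt (x - y)) ∂haarAddCircle = 1 := by
    rw [integral_sub_right_eq_self (μ := (haarAddCircle : Measure UnitAddCircle))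
      (fun x => poisson r (pt x)) y, integral_poisson hr0 hz]
  rw [h3, mul_one]

end Pool.Agent.Q167.BP
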