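import Mathlib

/-!
The biharmonic Poisson kernel and the biharmonic Poisson transform of an analytic functional.
-/

set_option autoImplicit false

open AddCircle

namespace Pool.Agent.Q167.BP

/-- the Poisson kernel `P(z, ξ) = (1 - |z|²) / |ξ - z|²` -/
noncomputable def poisson (z ξ : ℂ) : ℝ := (1 - ‖z‖ ^ 2) / ‖ξ - z‖ ^ 2

/-- the biharmonic Poisson kernel `P₁ = P log P` -/
noncomputable def biPoisson (z ξ : ℂ) : ℝ := poisson z ξ * Real.log (poisson z ξ)

/-- the point `exp (2 π i x)` of the unit circle -/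
noncomputable def pt (x : UnitAddCircle) : ℂ := fourier 1 x

/-- the `n`-th Fourier coefficient `∫ g(ξ) ξ^(-n) dξ` of a function `g` on the unit circle, with respect to normalised
arc length -/
noncomputable def coef (g : ℂ → ℂ) (n : ℤ) : ℂ := fourierCoeff (fun x : UnitAddCircle => g (pt x)) n

/-- The numbers `ν n` are the coefficients of an analytic functional: `limsup |ν n|^(1/|n|) ≤ 1`, that is
`|ν n| r^|n|` is bounded for every `r < 1`. -/
def IsAnalyticFunctional (ν : ℤ → ℂ) : Prop :=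
  ∀ r : ℝ, 0 < r → r < 1 → ∃ K : ℝ, ∀ n : ℤ, ‖ν n‖ * r ^ n.natAbs ≤ K

/-- The value of the analytic functional with coefficients `ν n = ν(ξ^(-n))` at the function
`g = ∑ coef g n ξ^n`. -/
noncomputable def pairing (ν : ℤ → ℂ) (g : ℂ → ℂ) : ℂ := ∑' n : ℤ, coef g n * ν (-n)

/-- the biharmonic Poisson transform `f(z) = ν(P₁(z, ·))` -/
noncomputable def transform (ν : ℤ → ℂ) (z : ℂ) : ℂ := pairing ν fun ξ => (biPoisson z ξ : ℂ)

/-- hyperbolic distance to the origin -/
noncomputable def hypDist (z : ℂ) : ℝ := Real.log ((1 + ‖z‖) / (1 - ‖z‖))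

end Pool.Agent.Q167.BP
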