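import Pool.Agent.Q167.BP.Defs

/-!
Fourier coefficients of the biharmonic Poisson kernel.
-/

set_option autoImplicit false

open AddCircle MeasureTheory Filter Topology
open scoped ComplexConjugate

namespace Pool.Agent.Q167.BP

theorem norm_pt (x : UnitAddCircle) : ‖pt x‖ = 1 := by
  rw [pt, fourier_apply]; exact Circle.norm_coe _

theorem fourier_eq_zpow (n : ℤ) (x : UnitAddCircle) : (fourier n x : ℂ) = pt x ^ n := by
  rw [pt, fourier_apply, fourier_apply, one_zsmul, AddCircle.toCircle_zsmul, Circle.coe_zpow]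

theorem norm_fourier (n : ℤ) (x : UnitAddCircle) : ‖(fourier n x : ℂ)‖ = 1 := by
  rw [fourier_apply]; exact Circle.norm_coe _

theorem conj_pt (x : UnitAddCircle) : conj (pt x) = (pt x)⁻¹ := by
  rw [Complex.inv_def, Complex.normSq_eq_norm_sq, norm_pt]; simp

section
variable {r : ℝ}

theorem norm_sub_eq (x : UnitAddCircle) : ‖pt x - (r : ℂ)‖ = ‖1 - (r : ℂ) * pt x‖ := by
  have h1 : ‖pt x - (r : ℂ)‖ = ‖conj (pt x) - (r : ℂ)‖ := by
    rw [← Complex.norm_conj (pt x - r), map_sub, Complex.conj_ofReal]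
  have hne : pt x ≠ 0 := fun h => by have := norm_pt x; rw [h, norm_zero] at this; norm_num at this
  have h2 : conj (pt x) - (r : ℂ) = conj (pt x) * (1 - (r : ℂ) * pt x) := by
    rw [conj_pt]; field_simp
  rw [h1, h2, norm_mul, Complex.norm_conj, norm_pt, one_mul]

theorem norm_w (hr0 : 0 ≤ r) (x : UnitAddCircle) : ‖(r : ℂ) * pt x‖ = r := by
  rw [norm_mul, norm_pt, mul_one, Complex.norm_real, Real.norm_of_nonneg hr0]

theorem poisson_eq (hr0 : 0 ≤ r) (x : UnitAddCircle) :
    poisson r (pt x) = (1 - r ^ 2) / ‖1 - (r : ℂ) * pt x‖ ^ 2 := by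
  rw [poisson, norm_sub_eq, Complex.norm_real, Real.norm_of_nonneg hr0]

theorem dist_bounds (hr0 : 0 ≤ r) (x : UnitAddCircle) :
    1 - r ≤ ‖1 - (r : ℂ) * pt x‖ ∧ ‖1 - (r : ℂ) * pt x‖ ≤ 1 + r := by
  constructor
  · have := norm_sub_norm_le (1 : ℂ) ((r : ℂ) * pt x)
    rwa [norm_w hr0, norm_one] at this
  · have := norm_sub_le (1 : ℂ) ((r : ℂ) * pt x)
    rwa [norm_w hr0, norm_one] at this

theorem poisson_pos (hr0 : 0 ≤ r) (hr : r < 1) (x : UnitAddCircle) : 0 < poisson r (pt x) := by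
  rw [poisson_eq hr0]
  have := (dist_bounds hr0 x).1
  have h1 : 0 < ‖1 - (r : ℂ) * pt x‖ := by linarith
  have h2 : 0 < 1 - r ^ 2 := by nlinarith
  positivity

theorem abs_log_poisson (hr0 : 0 ≤ r) (hr : r < 1) (x : UnitAddCircle) :
    |Real.log (poisson r (pt x))| ≤ Real.log ((1 + r) / (1 - r)) := by
  obtain ⟨h1, h2⟩ := dist_bounds hr0 x
  have h3 : 0 < 1 - r := by linarith
  have h4 : 0 < 1 + r := by linarith
  have h0 : 0 < ‖1 - (r : ℂ) * pt x‖ := by linarith
  have hpos := poisson_pos hr0 hr x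
  rw [abs_le]
  constructor
  · rw [← Real.log_inv]
    refine Real.log_le_log (by positivity) ?_
    rw [poisson_eq hr0, inv_div, div_le_div_iff₀ h4 (by positivity)]
    have : ‖1 - (r : ℂ) * pt x‖ ^ 2 ≤ (1 + r) ^ 2 := pow_le_pow_left₀ h0.le h2 2
    nlinarith
  · refine Real.log_le_log hpos ?_
    rw [poisson_eq hr0, div_le_div_iff₀ (by positivity) h3]
    have : (1 - r) ^ 2 ≤ ‖1 - (r : ℂ) * pt x‖ ^ 2 := pow_le_pow_left₀ h3.le h1 2
    nlinarith

theorem poisson_hasSum (hr0 : 0 ≤ r) (hr : r < 1) (x : UnitAddCircle) :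
    HasSum (fun k : ℤ => (r : ℂ) ^ k.natAbs * fourier k x) (poisson r (pt x) : ℂ) := by
  set w : ℂ := (r : ℂ) * pt x with hw
  have hwn : ‖w‖ = r := norm_w hr0 x
  have hwlt : ‖w‖ < 1 := by rw [hwn]; exact hr
  have hcw : ‖conj w‖ < 1 := by rw [Complex.norm_conj]; exact hwlt
  have h1 : HasSum (fun n : ℕ => w ^ n) (1 - w)⁻¹ := hasSum_geometric_of_norm_lt_one hwlt
  have h2 : HasSum (fun n : ℕ => conj w ^ (n + 1)) (conj w * (1 - conj w)⁻¹) := by
    have := (hasSum_geometric_of_norm_lt_one hcw).mul_left (conj w)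
    refine this.congr_fun ?_ |> id
    intro n; rw [pow_succ, mul_comm]
  have h3 : HasSum (fun k : ℤ => (r : ℂ) ^ k.natAbs * fourier k x) ((1 - w)⁻¹ + conj w * (1 - conj w)⁻¹) := by
    refine HasSum.of_nat_of_neg_add_one ?_ ?_
    · refine h1.congr_fun ?_ |> id
      intro n
      rw [fourier_eq_zpow, Int.natAbs_natCast, zpow_natCast, ← mul_pow]
    · refine h2.congr_fun ?_ |> id
      intro n
      rw [fourier_eq_zpow, zpow_neg, ← inv_zpow, ← conj_pt]
      have e1 : (-((n : ℤ) + 1)).natAbs = n + 1 := by omega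
      have e2 : ((n : ℤ) + 1) = ((n + 1 : ℕ) : ℤ) := by push_cast; ring
      rw [e1, e2, zpow_natCast, ← mul_pow, hw, map_mul, Complex.conj_ofReal]
  have hne : (1 : ℂ) - w ≠ 0 := by
    intro h
    have h4 : w = 1 := (sub_eq_zero.1 h).symm
    rw [h4, norm_one] at hwlt
    exact lt_irrefl _ hwlt
  have hne' : (1 : ℂ) - conj w ≠ 0 := by
    intro h
    have h4 : conj w = 1 := (sub_eq_zero.1 h).symm
    rw [h4, norm_one] at hcw
    exact lt_irrefl _ hcw
  have h4 : ((1 - w)⁻¹ + conj w * (1 - conj w)⁻¹ : ℂ) = (poisson r (pt x) : ℂ) := by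
    rw [poisson_eq hr0, ← hw]
    push_cast
    have h5 : ((‖1 - w‖ : ℝ) : ℂ) ^ 2 = (1 - w) * (1 - conj w) := by
      have := Complex.mul_conj (1 - w)
      rw [map_sub, map_one] at this
      rw [this, Complex.normSq_eq_norm_sq]
      push_cast; rfl
    have h6 : (r : ℂ) ^ 2 = w * conj w := by
      rw [Complex.mul_conj, Complex.normSq_eq_norm_sq, hwn]; push_cast; rfl
    rw [h5, h6]
    field_simp
    ring
  rwa [h4] at h3

/-- the coefficients of `log P` -/
noncomputable def lc (r : ℝ) (k : ℤ) : ℂ :=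
  if k = 0 then (Real.log (1 - r ^ 2) : ℂ) else (r : ℂ) ^ k.natAbs / k.natAbs

theorem log_hasSum (hr0 : 0 ≤ r) (hr : r < 1) (x : UnitAddCircle) :
    HasSum (fun k : ℤ => lc r k * fourier k x) (Real.log (poisson r (pt x)) : ℂ) := by
  set w : ℂ := (r : ℂ) * pt x with hw
  have hwn : ‖w‖ = r := norm_w hr0 x
  have hwlt : ‖w‖ < 1 := by rw [hwn]; exact hr
  have hcw : ‖conj w‖ < 1 := by rw [Complex.norm_conj]; exact hwlt
  have h1 : HasSum (fun n : ℕ => w ^ n / n) (-Complex.log (1 - w)) := Complex.hasSum_taylorSeries_neg_log hwlt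
  have h1' : HasSum (fun n : ℕ => (if n = 0 then (Real.log (1 - r ^ 2) : ℂ) else 0) + w ^ n / n)
      ((Real.log (1 - r ^ 2) : ℂ) + -Complex.log (1 - w)) :=
    (hasSum_ite_eq 0 _).add h1
  have h2 : HasSum (fun n : ℕ => conj w ^ (n + 1) / ((n + 1 : ℕ) : ℂ)) (-Complex.log (1 - conj w)) := by
    have := (hasSum_nat_add_iff' 1).2 (Complex.hasSum_taylorSeries_neg_log hcw)
    simpa using this
  have h3 : HasSum (fun k : ℤ => lc r k * fourier k x)
      (((Real.log (1 - r ^ 2) : ℂ) + -Complex.log (1 - w)) + -Complex.log (1 - conj w)) := by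
    refine HasSum.of_nat_of_neg_add_one ?_ ?_
    · refine h1'.congr_fun ?_ |> id
      intro n
      rcases Nat.eq_zero_or_pos n with rfl | hn
      · simp [lc]
      · have : (n : ℤ) ≠ 0 := by exact_mod_cast hn.ne'
        rw [fourier_eq_zpow, lc, if_neg this, Int.natAbs_natCast, zpow_natCast, if_neg hn.ne', zero_add, hw, mul_pow]
        ring
    · refine h2.congr_fun ?_ |> id
      intro n
      have e1 : (-((n : ℤ) + 1)).natAbs = n + 1 := by omega
      have e2 : ((n : ℤ) + 1) = ((n + 1 : ℕ) : ℤ) := by push_cast; ring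
      have e3 : -((n : ℤ) + 1) ≠ 0 := by omega
      rw [fourier_eq_zpow, zpow_neg, ← inv_zpow, ← conj_pt, lc, if_neg e3, e1, e2, zpow_natCast, hw, map_mul,
        Complex.conj_ofReal, mul_pow]
      ring
  have hre : 0 < (1 - w).re := by
    have := Complex.re_le_norm w
    rw [Complex.sub_re, Complex.one_re]
    linarith
  have harg : (1 - w).arg ≠ Real.pi := by
    intro h
    rw [Complex.arg_eq_pi_iff] at h
    linarith [h.1]
  have h4 : Complex.log (1 - conj w) = conj (Complex.log (1 - w)) := by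
    rw [← Complex.log_conj _ harg, map_sub, map_one]
  have hne : 0 < ‖1 - w‖ := by
    have := (dist_bounds hr0 x).1
    linarith
  have h5 : (((Real.log (1 - r ^ 2) : ℂ) + -Complex.log (1 - w)) + -Complex.log (1 - conj w) : ℂ) =
      (Real.log (poisson r (pt x)) : ℂ) := by
    rw [h4, poisson_eq hr0, ← hw, Real.log_div (by nlinarith) (by positivity), Real.log_pow, ← Complex.log_re]
    have h6 := Complex.add_conj (Complex.log (1 - w))
    have h7 : (((2 : ℕ) : ℝ) * (Complex.log (1 - w)).re : ℝ) = 2 * (Complex.log (1 - w)).re := by norm_num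
    rw [h7, Complex.ofReal_sub, ← h6]
    ring
  rwa [h5] at h3

end

end Pool.Agent.Q167.BP
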