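import Pool.Agent.Q167.BP.Coef

/-!
The representing functional of a biharmonic Poisson transform of order `R` has bounded density.
-/

set_option autoImplicit false

open AddCircle MeasureTheory Filter Topology
open scoped ComplexConjugate InnerProductSpace ENNReal

namespace Pool.Agent.Q167.BP

/-- rotation of the kernel -/
theorem biPoisson_rot (r : ℝ) (x y : UnitAddCircle) :
    biPoisson ((r : ℂ) * pt y) (pt x) = biPoisson r (pt (x - y)) := by
  have h1 : pt x = pt y * pt (x - y) := by
    simp only [pt, fourier_apply, one_zsmul]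
    rw [← Circle.coe_mul, ← AddCircle.toCircle_add]
    congr 2
    abel
  have h2 : poisson ((r : ℂ) * pt y) (pt x) = poisson r (pt (x - y)) := by
    unfold poisson
    have h3 : pt x - (r : ℂ) * pt y = pt y * (pt (x - y) - r) := by rw [h1]; ring
    rw [h3, norm_mul, norm_mul, norm_pt, mul_one, one_mul]
  rw [biPoisson, biPoisson, h2]

theorem coef_rot (r : ℝ) (y : UnitAddCircle) (n : ℤ) :
    coef (fun ξ => (biPoisson ((r : ℂ) * pt y) ξ : ℂ)) n = (fourier (-n) y : ℂ) * cf r n := by
  rw [coef, fourierCoeff, cf_eq, ← integral_const_mul]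
  rw [← integral_add_right_eq_self (μ := (haarAddCircle : Measure UnitAddCircle)) _ y]
  refine integral_congr_ae (Eventually.of_forall fun x => ?_)
  simp only [smul_eq_mul]
  rw [biPoisson_rot, add_sub_cancel_right]
  have h1 : (fourier (-n) (x + y) : ℂ) = (fourier (-n) y : ℂ) * (fourier (-n) x : ℂ) := by
    rw [fourier_apply, fourier_apply, fourier_apply, smul_add, AddCircle.toCircle_add, Circle.coe_mul, mul_comm]
  rw [h1]; ring

variable {ν : ℤ → ℂ}

/-- the series defining the transform converges absolutely -/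
theorem summable_cf (hν : IsAnalyticFunctional ν) {r : ℝ} (hr0 : 0 ≤ r) (hr : r < 1) :
    Summable fun n : ℤ => ‖cf r (-n) * ν n‖ := by
  obtain ⟨K, ρ, hρ0, hρ1, hK⟩ := cf_decay hr0 hr
  set σ := Real.sqrt ρ with hσ
  have hσ0 : 0 < σ := Real.sqrt_pos.2 hρ0
  have hσ1 : σ < 1 := by rw [hσ, Real.sqrt_lt' one_pos]; simpa using hρ1
  obtain ⟨B, hB⟩ := hν σ hσ0 hσ1
  have hsum : Summable fun k : ℤ => K * B * σ ^ k.natAbs := by
    refine Summable.mul_left _ ?_
    refine Summable.of_nat_of_neg_add_one ?_ ?_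
    · exact (summable_geometric_of_lt_one hσ0.le hσ1).congr fun n => by simp
    · exact ((summable_nat_add_iff 1).2 (summable_geometric_of_lt_one hσ0.le hσ1)).congr fun n => by
        congr 1
  have hK0 : 0 ≤ K := by
    have := (norm_nonneg _).trans (hK 0)
    simpa using this
  refine Summable.of_nonneg_of_le (fun _ => norm_nonneg _) (fun n => ?_) hsum
  have h1 := hK (-n)
  rw [Int.natAbs_neg] at h1
  have h2 : ρ ^ n.natAbs = σ ^ n.natAbs * σ ^ n.natAbs := by
    rw [← mul_pow, hσ, Real.mul_self_sqrt hρ0.le]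
  rw [norm_mul]
  calc ‖cf r (-n)‖ * ‖ν n‖ ≤ K * ρ ^ n.natAbs * ‖ν n‖ := by gcongr
    _ = K * (‖ν n‖ * σ ^ n.natAbs) * σ ^ n.natAbs := by rw [h2]; ring
    _ ≤ K * B * σ ^ n.natAbs := by
      gcongr
      exact hB n

/-- the transform on the circle of radius `r` as a continuous function -/
noncomputable def Fc (ν : ℤ → ℂ) (r : ℝ) : C(UnitAddCircle, ℂ) := ∑' n : ℤ, (cf r (-n) * ν n) • fourier n

theorem summable_Fc (hν : IsAnalyticFunctional ν) {r : ℝ} (hr0 : 0 ≤ r) (hr : r < 1) :
    Summable fun n : ℤ => (cf r (-n) * ν n) • (fourier n : C(UnitAddCircle, ℂ)) := by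
  refine Summable.of_norm ((summable_cf hν hr0 hr).congr fun n => ?_)
  rw [norm_smul, fourier_norm, mul_one]

theorem Fc_apply (hν : IsAnalyticFunctional ν) {r : ℝ} (hr0 : 0 ≤ r) (hr : r < 1) (y : UnitAddCircle) :
    Fc ν r y = transform ν ((r : ℂ) * pt y) := by
  have h1 : HasSum (fun n : ℤ => (cf r (-n) * ν n) • (fourier n : C(UnitAddCircle, ℂ))) (Fc ν r) :=
    (summable_Fc hν hr0 hr).hasSum
  have h2 : HasSum (fun n : ℤ => (cf r (-n) * ν n) * fourier n y) (Fc ν r y) := by
    have := h1.mapL (ContinuousMap.evalCLM ℂ y)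
    simpa using this
  rw [transform, pairing, ← h2.tsum_eq]
  rw [← (Equiv.neg ℤ).tsum_eq]
  refine tsum_congr fun n => ?_
  rw [coef_rot]
  simp only [Equiv.neg_apply, neg_neg]
  ring

theorem main (hν : IsAnalyticFunctional ν) (C : ℝ)
    (hC : ∀ z : ℂ, ‖z‖ < 1 → ‖transform ν z‖ ≤ C * (1 + hypDist z)) :
    ∃ φ : UnitAddCircle → ℂ, Measurable φ ∧ (∀ x, ‖φ x‖ ≤ C) ∧ ∀ n : ℤ, ν n = fourierCoeff φ n := by
  set r : ℕ → ℝ := fun k => 1 - 1 / ((k : ℝ) + 2) with hr
  set R : ℕ → ℝ := fun k => Real.log ((1 + r k) / (1 - r k)) with hR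
  have hr0 : ∀ k, 0 ≤ r k := fun k => by
    simp only [hr]
    have : 1 / ((k : ℝ) + 2) ≤ 1 := by
      rw [div_le_one (by positivity)]
      have : (0 : ℝ) ≤ k := Nat.cast_nonneg k
      linarith
    linarith
  have hr1 : ∀ k, r k < 1 := fun k => by
    simp only [hr]
    have : 0 < 1 / ((k : ℝ) + 2) := by positivity
    linarith
  have hR0 : ∀ k, 0 ≤ R k := fun k => Real.log_nonneg (by
    rw [le_div_iff₀ (by linarith [hr1 k])]; linarith [hr0 k])
  have hC0 : 0 ≤ C := by
    have h1 := hC 0 (by simp)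
    have h2 : hypDist 0 = 0 := by simp [hypDist]
    rw [h2, add_zero, mul_one] at h1
    exact (norm_nonneg _).trans h1
  set w : ℕ → ℤ → ℂ := fun k n => cf (r k) (-n) / ((1 + R k : ℝ) : ℂ) with hw
  have hwlim : ∀ n, Tendsto (fun k => w k n) atTop (𝓝 1) := fun n => cf_limit (-n)
  have hw1 : ∀ k n, ‖w k n‖ ≤ 1 := by
    intro k n
    rw [hw]
    simp only
    rw [norm_div, Complex.norm_real, Real.norm_of_nonneg (by linarith [hR0 k]),
      div_le_one (by linarith [hR0 k])]
    exact (norm_cf_le (hr0 k) (hr1 k) (-n)).trans (by linarith [hR0 k])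
  -- the normalised functions
  set G : ℕ → C(UnitAddCircle, ℂ) := fun k => (((1 + R k : ℝ) : ℂ))⁻¹ • Fc ν (r k) with hG
  have hGb : ∀ k y, ‖G k y‖ ≤ C := by
    intro k y
    have h1 : ‖(r k : ℂ) * pt y‖ = r k := norm_w (hr0 k) y
    have h2 := hC ((r k : ℂ) * pt y) (by rw [h1]; exact hr1 k)
    rw [← Fc_apply hν (hr0 k) (hr1 k), hypDist, h1] at h2
    have h3 : 0 < 1 + R k := by linarith [hR0 k]
    rw [hG]
    simp only [ContinuousMap.coe_smul, Pi.smul_apply]
    rw [norm_smul, norm_inv, Complex.norm_real, Real.norm_of_nonneg h3.le, inv_mul_le_iff₀ h3, mul_comm]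
    exact h2
  -- their images in `L²`
  set g : ℕ → Lp ℂ 2 (haarAddCircle : Measure UnitAddCircle) := fun k =>
    ContinuousMap.toLp 2 haarAddCircle ℂ (G k) with hg
  have hgc : ∀ k n, ⟪(fourierBasis n : Lp ℂ 2 (haarAddCircle : Measure UnitAddCircle)), g k⟫_ℂ = w k n * ν n := by
    intro k n
    have h1 : HasSum (fun m : ℤ => (w k m * ν m) • (fourier m : C(UnitAddCircle, ℂ))) (G k) := by
      have := ((summable_Fc hν (hr0 k) (hr1 k)).hasSum).const_smul ((((1 + R k : ℝ) : ℂ))⁻¹)
      refine this.congr_fun ?_ |> id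
      intro m
      rw [smul_smul]
      congr 1
      rw [hw]
      simp only
      ring
    have h2 : HasSum (fun m : ℤ => (w k m * ν m) • (fourierLp 2 m : Lp ℂ 2 (haarAddCircle : Measure UnitAddCircle)))
        (g k) := by
      have := h1.mapL (ContinuousMap.toLp 2 (haarAddCircle : Measure UnitAddCircle) ℂ)
      refine this.congr_fun ?_ |> id
      intro m
      rw [map_smul]
    have h3 := h2.mapL (innerSL ℂ (fourierBasis n : Lp ℂ 2 (haarAddCircle : Measure UnitAddCircle)))
    rw [innerSL_apply_apply] at h3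
    refine h3.unique ?_
    have h4 : ∀ m : ℤ, innerSL ℂ (fourierBasis n : Lp ℂ 2 (haarAddCircle : Measure UnitAddCircle))
        ((w k m * ν m) • (fourierLp 2 m : Lp ℂ 2 (haarAddCircle : Measure UnitAddCircle))) =
        if m = n then w k n * ν n else 0 := by
      intro m
      rw [innerSL_apply_apply, inner_smul_right, ← coe_fourierBasis]
      have := orthonormal_iff_ite.1 (fourierBasis (T := 1)).orthonormal n m
      rw [this]
      by_cases h : m = n
      · subst h; simp
      · rw [if_neg h, if_neg (fun h' => h h'.symm), mul_zero]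
    simp_rw [h4]
    exact hasSum_ite_eq n _
  have hgn : ∀ k, ‖g k‖ ≤ C := by
    intro k
    have h1 : ‖g k‖ ≤ ‖G k‖ := by
      have h2 := ContinuousMap.toLp_norm_le (μ := (haarAddCircle : Measure UnitAddCircle)) (p := 2) (E := ℂ) (𝕜 := ℂ)
      have h3 := (ContinuousMap.toLp 2 (haarAddCircle : Measure UnitAddCircle) ℂ).le_opNorm (G k)
      have h4 : ‖(ContinuousMap.toLp 2 (haarAddCircle : Measure UnitAddCircle) ℂ :
          C(UnitAddCircle, ℂ) →L[ℂ] Lp ℂ 2 (haarAddCircle : Measure UnitAddCircle))‖ ≤ 1 := by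
        refine h2.trans ?_
        have h5 : measureUnivNNReal (haarAddCircle : Measure UnitAddCircle) = 1 := by
          rw [← ENNReal.coe_inj, coe_measureUnivNNReal, measure_univ, ENNReal.coe_one]
        rw [h5]; simp
      calc ‖g k‖ ≤ _ := h3
        _ ≤ 1 * ‖G k‖ := by gcongr
        _ = ‖G k‖ := one_mul _
    refine h1.trans ?_
    rw [ContinuousMap.norm_le _ hC0]
    exact hGb k
  -- the coefficients are square summable
  have hsq : ∀ s : Finset ℤ, ∑ n ∈ s, ‖ν n‖ ^ 2 ≤ C ^ 2 := by
    intro s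
    have h1 : ∀ k, ∑ n ∈ s, ‖w k n * ν n‖ ^ 2 ≤ C ^ 2 := by
      intro k
      have := (fourierBasis (T := 1)).orthonormal.sum_inner_products_le (g k) (s := s)
      simp_rw [hgc] at this
      exact this.trans (pow_le_pow_left₀ (norm_nonneg _) (hgn k) 2)
    have h2 : Tendsto (fun k => ∑ n ∈ s, ‖w k n * ν n‖ ^ 2) atTop (𝓝 (∑ n ∈ s, ‖ν n‖ ^ 2)) := by
      refine tendsto_finsetSum _ fun n _ => ?_
      have := (((hwlim n).mul_const (ν n)).norm).pow 2
      simpa using this
    exact le_of_tendsto' h2 h1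
  have hmem : Memℓp ν 2 := by
    refine memℓp_gen ?_
    have h1 : Summable fun n : ℤ => ‖ν n‖ ^ 2 := summable_of_sum_le (fun _ => sq_nonneg _) hsq
    refine h1.congr fun n => ?_
    rw [ENNReal.toReal_ofNat, Real.rpow_two]
  set φ2 : Lp ℂ 2 (haarAddCircle : Measure UnitAddCircle) := fourierBasis.repr.symm ⟨ν, hmem⟩ with hφ2
  have hφc : ∀ n, ⟪(fourierBasis n : Lp ℂ 2 (haarAddCircle : Measure UnitAddCircle)), φ2⟫_ℂ = ν n := by
    intro n
    rw [← HilbertBasis.repr_apply_apply, hφ2, LinearIsometryEquiv.apply_symm_apply]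
  -- weak convergence
  have hweak : ∀ h : Lp ℂ 2 (haarAddCircle : Measure UnitAddCircle),
      Tendsto (fun k => ⟪h, g k⟫_ℂ) atTop (𝓝 ⟪h, φ2⟫_ℂ) := by
    intro h
    have e1 : ∀ k, ⟪h, g k⟫_ℂ = ∑' n : ℤ, ⟪h, (fourierBasis n : Lp ℂ 2 (haarAddCircle : Measure UnitAddCircle))⟫_ℂ *
        (w k n * ν n) := by
      intro k
      rw [← (fourierBasis (T := 1)).tsum_inner_mul_inner h (g k)]
      exact tsum_congr fun n => by rw [hgc]
    have e2 : ⟪h, φ2⟫_ℂ = ∑' n : ℤ, ⟪h, (fourierBasis n : Lp ℂ 2 (haarAddCircle : Measure UnitAddCircle))⟫_ℂ *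
        ν n := by
      rw [← (fourierBasis (T := 1)).tsum_inner_mul_inner h φ2]
      exact tsum_congr fun n => by rw [hφc]
    simp_rw [e1]
    rw [e2]
    have hs : Summable fun n : ℤ => ‖⟪h, (fourierBasis n : Lp ℂ 2 (haarAddCircle : Measure UnitAddCircle))⟫_ℂ * ν n‖ := by
      have := (fourierBasis (T := 1)).summable_inner_mul_inner h φ2
      refine this.norm.congr fun n => ?_
      rw [hφc]
    refine tendsto_tsum_of_dominated_convergence hs ?_ ?_
    · intro n
      have := ((hwlim n).mul_const (ν n)).const_mul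
        ⟪h, (fourierBasis n : Lp ℂ 2 (haarAddCircle : Measure UnitAddCircle))⟫_ℂ
      simpa using this
    · refine Eventually.of_forall fun k n => ?_
      rw [norm_mul, norm_mul, norm_mul]
      have := hw1 k n
      have h0 := norm_nonneg (ν n)
      gcongr
      nlinarith
  -- the pointwise bound
  have hφm : StronglyMeasurable (φ2 : UnitAddCircle → ℂ) := Lp.stronglyMeasurable φ2
  have hbound : ∀ᵐ x ∂(haarAddCircle : Measure UnitAddCircle), ‖φ2 x‖ ≤ C := by
    have hint : Integrable (fun x => ‖φ2 x‖) (haarAddCircle : Measure UnitAddCircle) :=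
      ((Lp.memLp φ2).integrable (by norm_num)).norm
    refine ae_le_of_forall_setIntegral_le hint (integrable_const C) fun s hs _ => ?_
    -- the test function
    let t : UnitAddCircle → ℂ := s.indicator fun x => φ2 x / ‖φ2 x‖
    have htm : Measurable t := (hφm.measurable.div (Complex.measurable_ofReal.comp hφm.measurable.norm)).indicator hs
    have htb : ∀ x, ‖t x‖ ≤ s.indicator (fun _ => (1 : ℝ)) x := by
      intro x
      by_cases hx : x ∈ s
      · simp only [t, Set.indicator_of_mem hx]
        rw [norm_div, Complex.norm_real, norm_norm]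
        exact div_self_le_one _
      · simp [t, hx]
    have htmem : MemLp t 2 (haarAddCircle : Measure UnitAddCircle) := by
      refine MemLp.of_bound htm.aestronglyMeasurable 1 (Eventually.of_forall fun x => ?_)
      refine (htb x).trans ?_
      exact Set.indicator_le_self' (fun _ _ => zero_le_one) x |>.trans le_rfl
    set h := htmem.toLp with hh
    have hht : (h : UnitAddCircle → ℂ) =ᵐ[haarAddCircle] t := htmem.coeFn_toLp
    have h1 : ⟪h, φ2⟫_ℂ = ((∫ x in s, ‖φ2 x‖ ∂(haarAddCircle : Measure UnitAddCircle) : ℝ) : ℂ) := by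
      rw [L2.inner_def, ← integral_complex_ofReal, ← integral_indicator hs]
      refine integral_congr_ae ?_
      filter_upwards [hht] with x hx
      rw [hx, RCLike.inner_apply]
      by_cases hxs : x ∈ s
      · rw [Set.indicator_of_mem hxs]
        simp only [t, Set.indicator_of_mem hxs]
        rw [map_div₀, Complex.conj_ofReal]
        by_cases h0 : φ2 x = 0
        · simp [h0]
        · have : (‖φ2 x‖ : ℂ) ≠ 0 := by exact_mod_cast norm_ne_zero_iff.2 h0
          have h5 := Complex.mul_conj (φ2 x)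
          rw [Complex.normSq_eq_norm_sq] at h5
          rw [mul_div_assoc', div_eq_iff this, h5]
          push_cast; ring
      · rw [Set.indicator_of_notMem hxs]
        simp only [t, Set.indicator_of_notMem hxs]
        simp
    have h2 : ∀ k, ‖⟪h, g k⟫_ℂ‖ ≤ ∫ x in s, C ∂(haarAddCircle : Measure UnitAddCircle) := by
      intro k
      rw [L2.inner_def]
      refine (norm_integral_le_integral_norm _).trans ?_
      rw [← integral_indicator hs]
      refine integral_mono_ae ?_ ((integrable_const C).indicator hs) ?_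
      · have := L2.integrable_inner (𝕜 := ℂ) h (g k)
        exact this.norm
      · have hgk : (g k : UnitAddCircle → ℂ) =ᵐ[haarAddCircle] G k :=
          ContinuousMap.coeFn_toLp (𝕜 := ℂ) (haarAddCircle : Measure UnitAddCircle) (G k)
        filter_upwards [hht, hgk] with x hx hx2
        rw [hx, hx2]
        refine (norm_inner_le_norm _ _).trans ?_
        by_cases hxs : x ∈ s
        · have h3 := htb x
          rw [Set.indicator_of_mem hxs] at h3 ⊢
          have h4 := hGb k x
          calc ‖t x‖ * ‖G k x‖ ≤ 1 * C := mul_le_mul h3 h4 (norm_nonneg _) zero_le_one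
            _ = C := one_mul C
        · have h3 := htb x
          rw [Set.indicator_of_notMem hxs] at h3 ⊢
          have h4 : ‖t x‖ = 0 := le_antisymm h3 (norm_nonneg _)
          rw [h4, zero_mul]
    have h3 : ‖⟪h, φ2⟫_ℂ‖ ≤ ∫ x in s, C ∂(haarAddCircle : Measure UnitAddCircle) :=
      le_of_tendsto' (hweak h).norm h2
    rw [h1, Complex.norm_real] at h3
    exact (le_abs_self _).trans h3
  -- the bounded representative
  refine ⟨fun x => if ‖φ2 x‖ ≤ C then φ2 x else 0, ?_, ?_, ?_⟩
  · exact Measurable.ite (measurableSet_le hφm.measurable.norm measurable_const) hφm.measurable measurable_const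
  · intro x
    simp only
    split_ifs with h
    · exact h
    · rw [norm_zero]; exact hC0
  · intro n
    rw [← hφc n, ← HilbertBasis.repr_apply_apply, fourierBasis_repr]
    refine integral_congr_ae ?_
    filter_upwards [hbound] with x hx
    rw [if_pos hx]

end Pool.Agent.Q167.BP
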